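import Mathlib

/-!
Torsion-free relatively free groups of infinite rank are not `ℵ₁`-homogeneous: group theory part.
-/

set_option autoImplicit false

namespace Pool.Agent.Helper77.RelFree

open FirstOrder

/-- The language with one function symbol of every arity (the product of `n` elements). -/
abbrev L : Language := FirstOrder.Language.mk (fun _ => Unit) (fun _ => Empty)

/-- `val v z k i = v i * (v (i+1) * ( ... (v (i+k-1) * z ^ 2) ... )^2)^2`. -/
def val {G : Type} [Mul G] (v : ℕ → G) (z : G) : ℕ → ℕ → G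
  | 0, _ => z
  | k + 1, i => v i * (val v z k (i + 1) * val v z k (i + 1))

theorem map_val {G H : Type} [Group G] [Group H] (φ : G →* H) (v : ℕ → G) (z : G) (k i : ℕ) :
    φ (val v z k i) = val (fun j => φ (v j)) (φ z) k i := by
  induction k generalizing i with
  | zero => rfl
  | succ k ih => simp only [val, map_mul, ih]

theorem val_congr {G : Type} [Group G] (v w : ℕ → G) (z : G) (k i : ℕ)
    (h : ∀ j, i ≤ j → j < i + k → v j = w j) : val v z k i = val w z k i := by
  induction k generalizing i with
  | zero => rfl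
  | succ k ih =>
    simp only [val]
    rw [h i le_rfl (by omega), ih (i + 1) (fun j h1 h2 => h j (by omega) (by omega))]

/-- The elements `y i = x i * (x (i+1))^{-2}`. -/
def yy {G : Type} [Group G] (x : ℕ → G) (i : ℕ) : G := x i * (x (i + 1) * x (i + 1))⁻¹

theorem val_yy {G : Type} [Group G] (x : ℕ → G) (k i : ℕ) :
    val (yy x) (x (i + k)) k i = x i := by
  induction k generalizing i with
  | zero => rfl
  | succ k ih =>
    simp only [val]
    have := ih (i + 1)
    rw [show i + 1 + k = i + (k + 1) by omega] at this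
    rw [this, yy, mul_assoc, inv_mul_cancel, mul_one]

section

variable {G : Type} [Group G]

/-- The hypothesis that `X` is a free basis. -/
def IsBasis (X : Set G) : Prop :=
  Subgroup.closure X = ⊤ ∧ ∀ f : X → G, ∃ φ : G →* G, ∀ x : X, φ x = f x

theorem exists_hom {X : Set G} (hX : IsBasis X) (x : ℕ → G) (hx : Function.Injective x)
    (hxX : ∀ i, x i ∈ X) (g : ℕ → G) (n : ℕ) :
    ∃ φ : G →* G, (∀ i < n, φ (x i) = g i) ∧ ∀ u ∈ X, (∀ i < n, x i ≠ u) → φ u = u := by
  classical
  obtain ⟨φ, hφ⟩ := hX.2 (fun u => if h : ∃ i < n, x i = u then g h.choose else u)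
  refine ⟨φ, fun i hi => ?_, fun u hu h => ?_⟩
  · have h1 : ∃ j < n, x j = x i := ⟨i, hi, rfl⟩
    have h2 := hφ ⟨x i, hxX i⟩
    simp only at h2
    rw [h2, dif_pos h1]
    rw [hx h1.choose_spec.2]
  · have h2 := hφ ⟨u, hu⟩
    simp only at h2
    rw [h2, dif_neg]
    rintro ⟨i, hi, h3⟩
    exact h i hi h3

/-- There is an automorphism mapping `x i` to `y i` for all `i < n`. -/
theorem exists_aut {X : Set G} (hX : IsBasis X) (x : ℕ → G) (hx : Function.Injective x)
    (hxX : ∀ i, x i ∈ X) (n : ℕ) : ∃ φ : G ≃* G, ∀ i < n, φ (x i) = yy x i := by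
  obtain ⟨α, hα1, hα2⟩ := exists_hom hX x hx hxX (yy x) n
  obtain ⟨β, hβ1, hβ2⟩ := exists_hom hX x hx hxX (fun i => val x (x n) (n - i) i) n
  have hαge : ∀ i, n ≤ i → α (x i) = x i := fun i hi =>
    hα2 _ (hxX i) fun j hj h => by have := hx h; omega
  have hβge : ∀ i, n ≤ i → β (x i) = x i := fun i hi =>
    hβ2 _ (hxX i) fun j hj h => by have := hx h; omega
  have hβle : ∀ i, i ≤ n → β (x i) = val x (x n) (n - i) i := by
    intro i hi
    rcases hi.lt_or_eq with h | rfl
    · exact hβ1 i h
    · rw [hβge _ le_rfl, Nat.sub_self]; rfl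
  have h1 : α.comp β = MonoidHom.id G := by
    refine MonoidHom.eq_of_eqOn_dense hX.1 fun u hu => ?_
    by_cases h : ∃ i < n, x i = u
    · obtain ⟨i, hi, rfl⟩ := h
      simp only [MonoidHom.comp_apply, MonoidHom.id_apply]
      rw [hβ1 i hi, map_val, hαge n le_rfl]
      rw [val_congr _ (yy x) _ _ _ (fun j _ h2 => hα1 j (by omega))]
      have := val_yy x (n - i) i
      rwa [show i + (n - i) = n by omega] at this
    · push Not at h
      simp only [MonoidHom.comp_apply, MonoidHom.id_apply]
      rw [hβ2 u hu h, hα2 u hu h]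
  have h2 : β.comp α = MonoidHom.id G := by
    refine MonoidHom.eq_of_eqOn_dense hX.1 fun u hu => ?_
    by_cases h : ∃ i < n, x i = u
    · obtain ⟨i, hi, rfl⟩ := h
      simp only [MonoidHom.comp_apply, MonoidHom.id_apply]
      rw [hα1 i hi]
      unfold yy
      rw [map_mul, map_inv, map_mul, hβle i hi.le, hβle (i + 1) (by omega)]
      obtain ⟨k, hk⟩ : ∃ k, n - i = k + 1 := ⟨n - i - 1, by omega⟩
      rw [show n - (i + 1) = k by omega, hk]
      simp only [val]
      rw [mul_assoc, mul_inv_cancel, mul_one]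
    · push Not at h
      simp only [MonoidHom.comp_apply, MonoidHom.id_apply]
      rw [hα2 u hu h, hβ2 u hu h]
  exact ⟨MonoidHom.toMulEquiv α β h2 h1, fun i hi => hα1 i hi⟩

/-- An element lies in the subgroup generated by finitely many basis elements. -/
theorem exists_finite {X : Set G} (hX : Subgroup.closure X = ⊤) (d : G) :
    ∃ F : Set G, F.Finite ∧ F ⊆ X ∧ d ∈ Subgroup.closure F := by
  have hd : d ∈ Subgroup.closure X := by rw [hX]; trivial
  induction hd using Subgroup.closure_induction with
  | mem u hu => exact ⟨{u}, Set.finite_singleton u, by simpa using hu, Subgroup.subset_closure rfl⟩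
  | one => exact ⟨∅, Set.finite_empty, Set.empty_subset _, one_mem _⟩
  | mul a b _ _ ha hb =>
    obtain ⟨F1, h1, h2, h3⟩ := ha
    obtain ⟨F2, h4, h5, h6⟩ := hb
    exact ⟨F1 ∪ F2, h1.union h4, Set.union_subset h2 h5,
      mul_mem (Subgroup.closure_mono Set.subset_union_left h3)
        (Subgroup.closure_mono Set.subset_union_right h6)⟩
  | inv a _ ha =>
    obtain ⟨F1, h1, h2, h3⟩ := ha
    exact ⟨F1, h1, h2, inv_mem h3⟩

theorem val_one (v : ℕ → G) (z : G) (k i : ℕ) (h : ∀ j, i ≤ j → j < i + k → v j = 1) :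
    val v z k i = z ^ (2 ^ k) := by
  induction k generalizing i with
  | zero => simp [val]
  | succ k ih =>
    simp only [val]
    rw [h i le_rfl (by omega), ih (i + 1) (fun j h1 h2 => h j (by omega) (by omega)), one_mul,
      ← pow_add, pow_succ, mul_two]

theorem val_add (v : ℕ → G) (z : G) (k l i : ℕ) :
    val v z (k + l) i = val v (val v z l (i + k)) k i := by
  induction k generalizing i with
  | zero => simp [val]
  | succ k ih =>
    rw [show k + 1 + l = (k + l) + 1 by omega]
    simp only [val]
    rw [ih (i + 1), show i + 1 + k = i + (k + 1) by omega]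

/-- The contradiction. -/
theorem no_solution (htf : ∀ g : G, ∀ n : ℕ, 0 < n → g ^ n = 1 → g = 1)
    {X : Set G} (hX : IsBasis X) (x : ℕ → G) (hx : Function.Injective x)
    (hxX : ∀ i, x i ∈ X) (d : G) (h : ∀ n : ℕ, ∃ z, d = val x z n 0) : False := by
  classical
  obtain ⟨F, hF, hFX, hdF⟩ := exists_finite hX.1 d
  -- an index `N` with `x N ∉ F`
  obtain ⟨N, hN⟩ : ∃ N, x N ∉ F := by
    by_contra hcon
    push Not at hcon
    exact Set.infinite_of_injective_forall_mem hx hcon hF
  obtain ⟨θ, hθ⟩ := hX.2 (fun u => if (u : G) = x N then x N else 1)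
  have hθN : θ (x N) = x N := by
    have := hθ ⟨x N, hxX N⟩
    simpa using this
  have hθne : ∀ u ∈ X, u ≠ x N → θ u = 1 := by
    intro u hu hne
    have := hθ ⟨u, hu⟩
    simpa [hne] using this
  have hθd : θ d = 1 := by
    have : Subgroup.closure F ≤ θ.ker := by
      rw [Subgroup.closure_le]
      intro u hu
      exact hθne u (hFX hu) (fun h => hN (h ▸ hu))
    exact this hdF
  have hrange : ∀ g : G, θ g ∈ Subgroup.zpowers (x N) := by
    have : Subgroup.closure X ≤ (Subgroup.zpowers (x N)).comap θ := by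
      rw [Subgroup.closure_le]
      intro u hu
      by_cases hne : u = x N
      · subst hne
        simp only [Subgroup.coe_comap, Set.mem_preimage, SetLike.mem_coe]
        rw [hθN]; exact Subgroup.mem_zpowers _
      · simp only [Subgroup.coe_comap, Set.mem_preimage, SetLike.mem_coe]
        rw [hθne u hu hne]; exact one_mem _
    intro g
    have hg : g ∈ Subgroup.closure X := by rw [hX.1]; trivial
    exact this hg
  obtain ⟨z, hz⟩ := h (N + 1)
  have h1 : θ d = val (fun j => θ (x j)) (θ z) (N + 1) 0 := by rw [hz, map_val]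
  rw [hθd, val_add, val_one _ _ N 0 (fun j _ h2 => hθne _ (hxX j)
    (fun h3 => by have := hx h3; omega))] at h1
  have h2 := htf _ (2 ^ N) (by positivity) h1.symm
  simp only [val, Nat.zero_add, hθN] at h2
  obtain ⟨k, hk⟩ := hrange z
  simp only at hk
  rw [← hk] at h2
  have h3 : x N ^ (1 + 2 * k) = 1 := by
    rw [← h2, zpow_add, zpow_one, two_mul, zpow_add]
  have h4 : x N = 1 := by
    have h5 : x N ^ (1 + 2 * k).natAbs = 1 := by
      rcases Int.natAbs_eq (1 + 2 * k) with h6 | h6
      · rw [h6, zpow_natCast] at h3; exact h3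
      · rw [h6, zpow_neg, zpow_natCast, inv_eq_one] at h3; exact h3
    exact htf _ _ (by omega) h5
  -- a basis element is not trivial
  have h5 : x (N + 1) = 1 := by
    obtain ⟨φ, hφ⟩ := hX.2 (fun _ => x (N + 1))
    have := hφ ⟨x N, hxX N⟩
    simp only [h4, map_one] at this
    exact this.symm
  have := hx (h4.trans h5.symm)
  omega

end

section formulas

open FirstOrder.Language

/-- The term for `val`. The variables are `c = inl (inl ())`, `v i = inl (inr i)`, and the bound
variable `z`. -/
def tm : ℕ → ℕ → L.Term ((Unit ⊕ ℕ) ⊕ Fin 1)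
  | 0, _ => Term.var (Sum.inr 0)
  | k + 1, i => Term.func (l := 3) () ![Term.var (Sum.inl (Sum.inr i)), tm k (i + 1), tm k (i + 1)]

/-- The formula `∃ z, c = v 0 (v 1 ( ... (v (n-1) z^2)^2 ...)^2`. -/
def fm (n : ℕ) : L.Formula (Unit ⊕ ℕ) :=
  BoundedFormula.ex (Term.bdEqual (Term.var (Sum.inl (Sum.inl ()))) (tm n 0))

variable {G : Type} [Group G] [L.Structure G]

theorem realize_tm (hS : ∀ (n : ℕ) (f : L.Functions n) (xs : Fin n → G),
      Language.Structure.funMap f xs = (List.ofFn xs).prod)
    (v : Unit ⊕ ℕ → G) (z : Fin 1 → G) (k i : ℕ) :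
    (tm k i).realize (Sum.elim v z) = val (fun j => v (Sum.inr j)) (z 0) k i := by
  induction k generalizing i with
  | zero => rfl
  | succ k ih =>
    simp only [tm, Term.realize, val]
    rw [hS]
    simp [ih]

theorem realize_fm (hS : ∀ (n : ℕ) (f : L.Functions n) (xs : Fin n → G),
      Language.Structure.funMap f xs = (List.ofFn xs).prod)
    (v : Unit ⊕ ℕ → G) (n : ℕ) :
    (fm n).Realize v ↔ ∃ z, v (Sum.inl ()) = val (fun j => v (Sum.inr j)) z n 0 := by
  unfold fm Formula.Realize
  rw [BoundedFormula.realize_ex]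
  refine exists_congr fun z => ?_
  rw [BoundedFormula.realize_bdEqual, realize_tm hS]
  simp [Term.realize, Fin.snoc]

/-- Automorphisms of the group are automorphisms of the structure. -/
def toEquiv (hS : ∀ (n : ℕ) (f : L.Functions n) (xs : Fin n → G),
      Language.Structure.funMap f xs = (List.ofFn xs).prod) (φ : G ≃* G) : L.Equiv G G where
  toEquiv := φ.toEquiv
  map_fun' := by
    intro n f xs
    simp only [MulEquiv.toEquiv_eq_coe, Equiv.toFun_as_coe, EquivLike.coe_coe]
    rw [hS, hS, map_list_prod, List.map_ofFn]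
  map_rel' := by
    intro n r
    exact Empty.elim r

end formulas

end Pool.Agent.Helper77.RelFree
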